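import Mathlib

/-!
A symmetric set of non-self-overlapping words in the free group of rank two whose overlap graph
has clique number at most two, while the quotient by inversion has infinite clique number.
-/

namespace Pool.Agent.Results.MP_81fdd0_co.QuotientCliques

open FreeGroup

/-- `w` properly overlaps `w'`: a nonempty word is a suffix of `w` and a prefix of `w'`, and it
is shorter than both. -/
def ProperOverlap {α : Type} [DecidableEq α] (w w' : FreeGroup α) : Prop :=
  ∃ x : List (α × Bool), x ≠ [] ∧ x <:+ w.toWord ∧ x <+: w'.toWord ∧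
    x.length < w.toWord.length ∧ x.length < w'.toWord.length

/-- `w ≠ 1` and no nonempty word is both a proper prefix and a proper suffix of `w`. -/
def NonSelfOverlapping {α : Type} [DecidableEq α] (w : FreeGroup α) : Prop :=
  w ≠ 1 ∧ ¬ ∃ x : List (α × Bool), x ≠ [] ∧ x <+: w.toWord ∧ x <:+ w.toWord ∧ x ≠ w.toWord

/-- The underlying undirected graph of the overlap graph on `V`. -/
def OG {α : Type} [DecidableEq α] (V : Set (FreeGroup α)) : SimpleGraph V where
  Adj u v := u ≠ v ∧ (ProperOverlap (u : FreeGroup α) v ∨ ProperOverlap (v : FreeGroup α) u)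
  symm := ⟨fun _ _ h => ⟨h.1.symm, h.2.symm⟩⟩
  loopless := ⟨fun _ h => h.1 rfl⟩

/-- The quotient graph: vertices are the pairs `{w, w⁻¹}` with `w` in `V`. -/
def OGbar {α : Type} [DecidableEq α] (V : Set (FreeGroup α)) :
    SimpleGraph {P : Set (FreeGroup α) // ∃ w ∈ V, P = {w, w⁻¹}} where
  Adj P Q := P ≠ Q ∧ ∃ u ∈ P.1, ∃ v ∈ Q.1, ProperOverlap u v ∨ ProperOverlap v u
  symm := ⟨fun _ _ h => ⟨h.1.symm, by
    obtain ⟨-, u, hu, v, hv, h⟩ := h
    exact ⟨v, hv, u, hu, h.symm⟩⟩⟩
  loopless := ⟨fun _ h => h.1 rfl⟩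

/-- The clique number in `ℕ ∪ {∞}`: the supremum of the sizes of finite cliques. -/
noncomputable def omega {W : Type} (G : SimpleGraph W) : ℕ∞ :=
  ⨆ s : {s : Finset W // G.IsClique s}, (s.1.card : ℕ∞)

/-! ### Inversion -/

variable {α : Type} [DecidableEq α]

omit [DecidableEq α] in
theorem invRev_prefix {x y : List (α × Bool)} (h : x <+: y) : invRev x <:+ invRev y := by
  obtain ⟨t, rfl⟩ := h
  exact ⟨invRev t, by rw [invRev_append]⟩

omit [DecidableEq α] in
theorem invRev_suffix {x y : List (α × Bool)} (h : x <:+ y) : invRev x <+: invRev y := by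
  obtain ⟨t, rfl⟩ := h
  exact ⟨invRev t, by rw [invRev_append]⟩

theorem overlap_inv {w w' : FreeGroup α} (h : ProperOverlap w⁻¹ w'⁻¹) : ProperOverlap w' w := by
  obtain ⟨x, hx, h1, h2, h3, h4⟩ := h
  rw [toWord_inv] at h1 h2 h3 h4
  refine ⟨invRev x, ?_, ?_, ?_, ?_, ?_⟩
  · intro h
    apply hx
    rw [← invRev_invRev (L₁ := x), h, invRev_empty]
  · have := invRev_prefix h2
    rwa [invRev_invRev] at this
  · have := invRev_suffix h1
    rwa [invRev_invRev] at this
  · rwa [invRev_length] at h4 ⊢
  · rwa [invRev_length] at h3 ⊢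

theorem nso_inv {w : FreeGroup α} (h : NonSelfOverlapping w) : NonSelfOverlapping w⁻¹ := by
  refine ⟨fun h1 => h.1 (inv_eq_one.1 h1), ?_⟩
  rintro ⟨x, hx, h1, h2, h3⟩
  rw [toWord_inv] at h1 h2 h3
  refine h.2 ⟨invRev x, ?_, ?_, ?_, ?_⟩
  · intro h
    apply hx
    rw [← invRev_invRev (L₁ := x), h, invRev_empty]
  · have := invRev_suffix h2
    rwa [invRev_invRev] at this
  · have := invRev_prefix h1
    rwa [invRev_invRev] at this
  · intro h
    apply h3
    rw [← h, invRev_invRev]

/-! ### The words -/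

/-- Letters of the free group of rank two. -/
abbrev Lt := Fin 2 × Bool

/-- `x_{j+1} = x_j b x_j^{-1}`, `x_0 = a b a^{-1}`. -/
def x : ℕ → List Lt
  | 0 => [(0, true), (1, true), (0, false)]
  | j + 1 => x j ++ (1, true) :: invRev (x j)

/-- `w_j = b^{j+2} x_j`. -/
def w (j : ℕ) : List Lt := List.replicate (j + 2) (1, true) ++ x j

theorem x_ends (j : ℕ) : (∃ t, x j = (0, true) :: t) ∧ (∃ t, x j = t ++ [(0, false)]) := by
  induction j with
  | zero => exact ⟨⟨_, rfl⟩, ⟨[(0, true), (1, true)], rfl⟩⟩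
  | succ j ih =>
    obtain ⟨⟨t, ht⟩, -⟩ := ih
    refine ⟨⟨t ++ (1, true) :: invRev (x j), ?_⟩, ⟨x j ++ (1, true) :: invRev t, ?_⟩⟩
    · rw [x, ht]; rfl
    · rw [x]
      conv_lhs => rw [ht]
      conv_rhs => rw [ht]
      simp [invRev]

theorem chain_invRev {l : List Lt} (h : l.IsChain (fun u v => u.1 ≠ v.1)) :
    (invRev l).IsChain (fun u v => u.1 ≠ v.1) := by
  rw [invRev, List.isChain_reverse, List.isChain_map]
  exact h.imp fun a b hab => Ne.symm hab

theorem x_chain (j : ℕ) : (x j).IsChain (fun u v => u.1 ≠ v.1) := by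
  induction j with
  | zero => simp [x]
  | succ j ih =>
    rw [x, List.isChain_append]
    obtain ⟨-, t, ht⟩ := x_ends j
    refine ⟨ih, ?_, ?_⟩
    · rw [List.isChain_cons]
      refine ⟨?_, chain_invRev ih⟩
      intro y hy
      rw [ht] at hy
      simp [invRev] at hy
      rw [← hy]
      decide
    · intro u hu v hv
      rw [ht] at hu
      simp at hu hv
      rw [← hu, ← hv]
      decide

theorem w_reduced (j : ℕ) : FreeGroup.IsReduced (w j) := by
  rw [FreeGroup.IsReduced, w, List.isChain_append]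
  refine ⟨?_, ?_, ?_⟩
  · exact List.isChain_replicate_of_rel _ (by simp)
  · exact (x_chain j).imp fun a b hab h => absurd h hab
  · intro u hu v hv
    obtain ⟨⟨t, ht⟩, -⟩ := x_ends j
    rw [ht] at hv
    simp only [List.getLast?_replicate, Nat.add_eq_zero_iff, OfNat.ofNat_ne_zero, and_false,
      if_false, Option.mem_def, Option.some.injEq, List.head?_cons] at hu hv
    rw [← hu, ← hv]
    simp

/-- The group elements. -/
def g (j : ℕ) : FreeGroup (Fin 2) := mk (w j)

theorem g_word (j : ℕ) : (g j).toWord = w j := by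
  rw [g, toWord_mk, (w_reduced j).reduce_eq]

theorem x_length_lt {i j : ℕ} (h : i < j) : (x i).length < (x j).length := by
  have hs : StrictMono fun j => (x j).length := by
    apply strictMono_nat_of_lt_succ
    intro j
    simp [x]
  exact hs h

theorem w_length_lt {i j : ℕ} (h : i < j) : (w i).length < (w j).length := by
  have := x_length_lt h
  simp only [w, List.length_append, List.length_replicate]
  omega

theorem x_prefix {i j : ℕ} (h : i ≤ j) : x i <+: x j := by
  induction h with
  | refl => exact List.prefix_refl _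
  | step h ih => exact ih.trans ⟨_, rfl⟩

theorem invx_suffix {i j : ℕ} (h : i < j) : invRev (x i) <:+ x j := by
  cases j with
  | zero => omega
  | succ j =>
    have h1 : x i <+: x j := x_prefix (by omega)
    exact (invRev_prefix h1).trans ⟨x j ++ [(1, true)], by simp [x]⟩

theorem replicate_prefix {k n : ℕ} {t t' : List Lt}
    (h : List.replicate k ((1, true) : Lt) ++ (0, true) :: t <+:
      List.replicate n ((1, true) : Lt) ++ (0, true) :: t') :
    k = n ∧ ((0, true) : Lt) :: t <+: (0, true) :: t' := by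
  induction k generalizing n with
  | zero =>
    cases n with
    | zero => simpa using h
    | succ n =>
      rw [List.replicate_succ] at h
      simp at h
  | succ k ih =>
    cases n with
    | zero =>
      rw [List.replicate_succ] at h
      simp at h
    | succ n =>
      rw [List.replicate_succ, List.replicate_succ, List.cons_append, List.cons_append,
        List.cons_prefix_cons] at h
      obtain ⟨h1, h2⟩ := ih h.2
      exact ⟨by omega, h2⟩

theorem suffix_replicate {m : ℕ} {p y : List Lt}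
    (h : p <:+ List.replicate m ((1, true) : Lt) ++ y) :
    p <:+ y ∨ ∃ k, 1 ≤ k ∧ k ≤ m ∧ p = List.replicate k ((1, true) : Lt) ++ y := by
  induction m with
  | zero => left; simpa using h
  | succ m ih =>
    rw [List.replicate_succ, List.cons_append, List.suffix_cons_iff] at h
    rcases h with h | h
    · right
      exact ⟨m + 1, by omega, le_rfl, by rw [h, List.replicate_succ, List.cons_append]⟩
    · rcases ih h with h | ⟨k, h1, h2, h3⟩
      · left; exact h
      · right; exact ⟨k, h1, by omega, h3⟩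

/-- A nonempty suffix of `w_i` which is a prefix of `w_j` is the whole of `w_i`, and `i = j`. -/
theorem key {i j : ℕ} {p : List Lt} (hp : p ≠ []) (hs : p <:+ w i) (hpre : p <+: w j) :
    i = j ∧ p = w i := by
  obtain ⟨⟨t, ht⟩, t2, ht2⟩ := x_ends i
  obtain ⟨⟨t', ht'⟩, -⟩ := x_ends j
  rcases suffix_replicate hs with h | ⟨k, hk1, hk2, hk3⟩
  · -- a suffix of `x_i`
    exfalso
    have hch : p.IsChain (fun u v => u.1 ≠ v.1) := (x_chain i).suffix h
    have hlast : p.getLast? = some (0, false) := by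
      obtain ⟨q, hq⟩ := h
      rw [ht2] at hq
      have h1 : (q ++ p).getLast? = some (0, false) := by rw [hq]; simp
      rw [List.getLast?_append_of_ne_nil _ hp] at h1
      exact h1
    match p, hp, hpre, hch, hlast with
    | [u], _, hpre, _, hlast =>
      rw [w, List.replicate_succ, List.cons_append, List.cons_prefix_cons] at hpre
      rw [hpre.1] at hlast
      simp at hlast
    | u :: v :: p, _, hpre, hch, _ =>
      rw [w, List.replicate_succ, List.replicate_succ, List.cons_append, List.cons_append,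
        List.cons_prefix_cons, List.cons_prefix_cons] at hpre
      rw [List.isChain_cons_cons] at hch
      exact hch.1 (by rw [hpre.1, hpre.2.1])
  · rw [hk3, w, ht, ht'] at hpre
    obtain ⟨h1, h2⟩ := replicate_prefix hpre
    rw [← ht, ← ht'] at h2
    have hij : i ≤ j := by
      by_contra hlt
      have := x_length_lt (not_le.1 hlt)
      exact absurd h2.length_le (by omega)
    have : i = j := by omega
    subst this
    exact ⟨rfl, by rw [hk3, h1]; rfl⟩

theorem no_overlap (i j : ℕ) : ¬ ProperOverlap (g i) (g j) := by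
  rintro ⟨p, hp, h1, h2, h3, h4⟩
  rw [g_word] at h1 h2 h3 h4
  obtain ⟨-, h⟩ := key hp h1 h2
  rw [h] at h3
  exact lt_irrefl _ h3

theorem w_ne_nil (j : ℕ) : w j ≠ [] := by
  rw [w, List.replicate_succ]
  simp

theorem nso (j : ℕ) : NonSelfOverlapping (g j) := by
  refine ⟨?_, ?_⟩
  · intro h
    have h1 := g_word j
    rw [h, toWord_one] at h1
    exact w_ne_nil j h1.symm
  · rintro ⟨p, hp, h1, h2, h3⟩
    rw [g_word] at h1 h2 h3
    exact h3 (key hp h2 h1).2

/-- `w_i` properly overlaps the inverse of `w_j` when `j < i`. -/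
theorem overlap {i j : ℕ} (h : j < i) : ProperOverlap (g i) (g j)⁻¹ := by
  have hx : (invRev (x j)).length < (w j).length := by
    rw [invRev_length, w, List.length_append, List.length_replicate]
    omega
  refine ⟨invRev (x j), ?_, ?_, ?_, ?_, ?_⟩
  · intro h
    have h1 : (invRev (x j)).length = 0 := by rw [h]; rfl
    obtain ⟨⟨t, ht⟩, -⟩ := x_ends j
    rw [invRev_length, ht] at h1
    simp at h1
  · rw [g_word]
    exact (invx_suffix h).trans (List.suffix_append _ _)
  · rw [toWord_inv, g_word, w, invRev_append]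
    exact List.prefix_append _ _
  · rw [g_word]
    exact hx.trans (w_length_lt h)
  · rw [toWord_inv, g_word]
    rw [invRev_length (L₁ := w j)]
    exact hx

/-- The symmetric set. -/
def V : Set (FreeGroup (Fin 2)) := {u | ∃ j : ℕ, u = g j ∨ u = (g j)⁻¹}

theorem V_symm : ∀ u ∈ V, u⁻¹ ∈ V := by
  rintro u ⟨j, rfl | rfl⟩
  · exact ⟨j, Or.inr rfl⟩
  · exact ⟨j, Or.inl (by rw [inv_inv])⟩

theorem V_nso : ∀ u ∈ V, NonSelfOverlapping u := by
  rintro u ⟨j, rfl | rfl⟩
  · exact nso j
  · exact nso_inv (nso j)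

theorem pos_not_adj {u v : V} {i j : ℕ} (hu : (u : FreeGroup (Fin 2)) = g i)
    (hv : (v : FreeGroup (Fin 2)) = g j) : ¬ (OG V).Adj u v := by
  rintro ⟨-, h | h⟩
  · rw [hu, hv] at h; exact no_overlap _ _ h
  · rw [hu, hv] at h; exact no_overlap _ _ h

theorem neg_not_adj {u v : V} {i j : ℕ} (hu : (u : FreeGroup (Fin 2)) = (g i)⁻¹)
    (hv : (v : FreeGroup (Fin 2)) = (g j)⁻¹) : ¬ (OG V).Adj u v := by
  rintro ⟨-, h | h⟩
  · rw [hu, hv] at h; exact no_overlap _ _ (overlap_inv h)
  · rw [hu, hv] at h; exact no_overlap _ _ (overlap_inv h)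

theorem omega_le : omega (OG V) ≤ 2 := by
  apply iSup_le
  rintro ⟨s, hs⟩
  have : s.card ≤ 2 := by
    by_contra hlt
    obtain ⟨u, v, t, hu, hv, ht, huv, hut, hvt⟩ := Finset.two_lt_card_iff.1 (not_le.1 hlt)
    have a1 := hs hu hv huv
    have a2 := hs hu ht hut
    have a3 := hs hv ht hvt
    obtain ⟨i, hi | hi⟩ := u.2 <;> obtain ⟨j, hj | hj⟩ := v.2 <;> obtain ⟨k, hk | hk⟩ := t.2
    · exact pos_not_adj hi hj a1
    · exact pos_not_adj hi hj a1
    · exact pos_not_adj hi hk a2
    · exact neg_not_adj hj hk a3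
    · exact pos_not_adj hj hk a3
    · exact neg_not_adj hi hk a2
    · exact neg_not_adj hi hj a1
    · exact neg_not_adj hi hj a1
  exact_mod_cast this

/-- The pairs. -/
def P (j : ℕ) : {P : Set (FreeGroup (Fin 2)) // ∃ w ∈ V, P = {w, w⁻¹}} :=
  ⟨{g j, (g j)⁻¹}, g j, ⟨j, Or.inl rfl⟩, rfl⟩

theorem P_ne {i j : ℕ} (h : i < j) : P i ≠ P j := by
  intro hP
  have h1 : g i ∈ (P j).1 := by rw [← hP]; exact Or.inl rfl
  have h2 := w_length_lt h
  rcases h1 with h1 | h1
  · rw [← g_word, ← g_word, h1] at h2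
    exact lt_irrefl _ h2
  · have h3 : g i = (g j)⁻¹ := h1
    rw [← g_word, ← g_word, h3, toWord_inv, invRev_length] at h2
    exact lt_irrefl _ h2

theorem P_inj : Function.Injective P := by
  intro i j h
  by_contra hne
  rcases lt_or_gt_of_ne hne with h1 | h1
  · exact P_ne h1 h
  · exact P_ne h1 h.symm

theorem P_adj {i j : ℕ} (h : j < i) : (OGbar V).Adj (P i) (P j) :=
  ⟨(P_ne h).symm, g i, Or.inl rfl, (g j)⁻¹, Or.inr rfl, Or.inl (overlap h)⟩

theorem omega_bar : omega (OGbar V) = ⊤ := by
  rw [ENat.eq_top_iff_forall_ge]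
  intro n
  let s : Finset {P : Set (FreeGroup (Fin 2)) // ∃ w ∈ V, P = {w, w⁻¹}} :=
    (Finset.range n).map ⟨P, P_inj⟩
  have hs : (OGbar V).IsClique s := by
    intro a ha b hb hab
    simp only [s, Finset.coe_map, Function.Embedding.coeFn_mk, Set.mem_image, Finset.mem_coe] at ha hb
    obtain ⟨i, -, rfl⟩ := ha
    obtain ⟨j, -, rfl⟩ := hb
    rcases lt_trichotomy i j with h | h | h
    · exact (P_adj h).symm
    · subst h; exact absurd rfl hab
    · exact P_adj h
  have h1 : ((s.card : ℕ) : ℕ∞) ≤ omega (OGbar V) := by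
    unfold omega
    exact le_iSup (fun s : {s : Finset {P : Set (FreeGroup (Fin 2)) // ∃ w ∈ V, P = {w, w⁻¹}} //
      (OGbar V).IsClique s} => ((s.1.card : ℕ) : ℕ∞)) ⟨s, hs⟩
  simpa [s] using h1

/-- There is a symmetric set of non-self-overlapping words in the free group of rank two whose
overlap graph has clique number at most two while its quotient by inversion contains complete
subgraphs of every finite size. -/
theorem result : ∃ V : Set (FreeGroup (Fin 2)), (∀ u ∈ V, u⁻¹ ∈ V) ∧
    (∀ u ∈ V, NonSelfOverlapping u) ∧ omega (OG V) ≤ 2 ∧ omega (OGbar V) = ⊤ :=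
  ⟨V, V_symm, V_nso, omega_le, omega_bar⟩

end Pool.Agent.Results.MP_81fdd0_co.QuotientCliques
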